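import Pool.Agent.C2.Stmts

/-!
# C2, row KD0: kernel duality
-/

namespace Pool.Agent.C2.H77

open Pool.Agent.C2 Finset

/-- the number of the solutions of a homogeneous system -/
theorem card_ker {F : Type} [Field F] [Fintype F] {R Y : Type} [Fintype R] [Fintype Y]
    (A : Matrix R Y F) :
    Fintype.card F ^ A.rank * Nat.card {z : Y → F // ∀ r, ∑ y, A r y * z y = 0} =
      Fintype.card F ^ Fintype.card Y := by
  have e : {z : Y → F // ∀ r, ∑ y, A r y * z y = 0} ≃ LinearMap.ker A.mulVecLin := by
    refine Equiv.subtypeEquivRight fun z => ?_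
    rw [LinearMap.mem_ker, Matrix.mulVecLin_apply, funext_iff]
    exact Iff.rfl
  rw [Nat.card_congr e, Module.natCard_eq_pow_finrank (K := F), Nat.card_eq_fintype_card, ← pow_add]
  have h := LinearMap.finrank_range_add_finrank_ker A.mulVecLin
  rw [Module.finrank_fintype_fun_eq_card] at h
  have h2 : A.rank = Module.finrank F (LinearMap.range A.mulVecLin) := rfl
  rw [h2, h]

/-- **KD0** -/
theorem kd0 : Kd0Stmt := by
  intro F _ _ R Y _ _ M
  have h1 := card_ker (Matrix.of M)
  have h2 := card_ker (Matrix.of M).transpose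
  rw [Matrix.rank_transpose] at h2
  have e2 : Nat.card {z : R → F // ∀ r, ∑ y, (Matrix.of M).transpose r y * z y = 0} =
      Nat.card {x : R → F // ∀ y, ∑ r, x r * M r y = 0} := by
    refine Nat.card_congr (Equiv.subtypeEquivRight fun x => ?_)
    refine forall_congr' fun y => ?_
    have e3 : ∑ r, (Matrix.of M).transpose y r * x r = ∑ r, x r * M r y := by
      refine Finset.sum_congr rfl fun r _ => ?_
      rw [Matrix.transpose_apply, Matrix.of_apply, mul_comm]
    rw [e3]
  rw [e2] at h2
  have e1 : Nat.card {z : Y → F // ∀ r, ∑ y, (Matrix.of M) r y * z y = 0} =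
      Nat.card {z : Y → F // ∀ r, ∑ y, M r y * z y = 0} := rfl
  rw [e1] at h1
  rw [← h1, ← h2]
  ring

end Pool.Agent.C2.H77
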